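import Pool.Agent.helper59.FI4.SpecI

set_option autoImplicit false

namespace Pool.Agent.FI4I

open Pool.Agent.helper58.DC Pool.Agent.DI Pool.Agent.GR Pool.Agent.OB Pool.Agent.DR Pool.Agent.FI Pool.Agent.FI3 Pool.Agent.FI4

theorem BKC (hCJR : CJR_stmt) (hDFH : DFH_stmt) (hDUN : DUN_stmt) (hFSI : FSI_stmt) : BKC_stmt := by
  intro p M hs G _ _ D x θ χ hr Q N hM φ hφ g g' hg hg' θ₁ h1 s1 θ₂ h2 s2
  have key : ∀ g : G, Q ≤ cjS g D → ∀ θ₁ ∈ IrrOn (cz (cjS g D)), SB M N θ₁ φ →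
      ∃ x' : G, DefL p M N φ (cjS g D) x' := by
    intro g hg θ₁ h1 s1
    have hle : cz (cjS g D) ≤ cz Q := Subgroup.centralizer_le hg
    have hN : cz (cjS g D) ≤ N := hle.trans hM.cle
    have hi : Induces M θ₁ χ :=
      ((hFSI p M hs G N N θ₁ φ).2 (fun y hy => h1.1 y (fun h => hy (hN h)))
        (fun y hy => hφ.1.1 y hy) s1 χ).2 hφ.2
    obtain ⟨x', _, hx'⟩ := hDFH p M hs G (cjS g D) _ θ₁ χ
      (hCJR p M hs G D x θ χ hr g θ₁ h1 hi).1 N hN φ hφ.1 s1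
    exact ⟨x', hx'⟩
  obtain ⟨x1, hx1⟩ := key g hg θ₁ h1 s1
  obtain ⟨x2, hx2⟩ := key g' hg' θ₂ h2 s2
  exact (hDUN p M hs G N φ hφ.1 (cjS g D) x1 hx1).1 (cjS g' D) x2 hx2

end Pool.Agent.FI4I
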