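import Pool.Agent.helper58.FI4.SpecC

set_option autoImplicit false

namespace Pool.Agent.FI4C

open Pool.Agent.helper58.DC Pool.Agent.DI Pool.Agent.GR Pool.Agent.OB Pool.Agent.DR Pool.Agent.FI Pool.Agent.FI3 Pool.Agent.FI4

theorem CN4_blk (hFSI : FSI_stmt) (hIM : IM_stmt) (hC3 : C3_stmt) {p : ℕ}
    {M : Ideal (integralClosure ℤ ℂ)} (hs : Setup p M) {G : Type} [Group G] [Finite G]
    {D : Subgroup G} {x : G} {θ χ : G → ℂ} (hr : Rt p M D x θ χ) :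
    Blk M χ (⊤ : Subgroup G) = Bl M (⊤ : Subgroup G) θ := by
  ext ψ
  constructor
  · rintro ⟨h0, h⟩
    refine ⟨h0, fun z hz hzi => ?_⟩
    have h1 : Induces M χ θ := (hIM G M θ χ θ).2.1 hr.ind
    have h2 : Induces M ψ θ := (hIM G M ψ χ θ).2.2.1 h h1
    have : Fact p.Prime := ⟨hs.pr⟩
    exact (hC3 G).2.2.1 p M hs.max hs.mem ψ θ h2 z
      ⟨fun x y => hz.1 y (Subgroup.mem_top y) x, hzi⟩
  · rintro ⟨h0, h⟩
    exact ⟨h0, ((hFSI p M hs G ⊤ ⊤ ψ θ).2 (fun x hx => absurd (Subgroup.mem_top x) hx)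
      (fun x hx => absurd (Subgroup.mem_top x) hx) h χ).2 hr.ind⟩

theorem CN4_pow {p m : ℕ} {G : Type} [Group G] [Finite G] (hm : Gm p (Nat.card G) m)
    {y v : G} (hv : PReg p v) (hc : y * v = v * y) : (y * v) ^ m = y ^ m * v := by
  have h1 : Commute y v := hc
  have h2 : m ≡ 1 [MOD orderOf v] := hm.reg _ (orderOf_dvd_natCard v) hv
  have h3 : v ^ m = v ^ 1 := pow_eq_pow_iff_modEq.2 h2
  rw [h1.mul_pow, h3, pow_one]

theorem CN4_pos {P : Prop} (h : P) (a : ℂ) : ∑ᶠ (_ : P), a = a := by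
  classical
  rw [finsum_eq_if, if_pos h]

theorem CN4_neg {P : Prop} (h : ¬ P) (a : ℂ) : ∑ᶠ (_ : P), a = 0 := by
  classical
  rw [finsum_eq_if, if_neg h]

theorem CN4 (hLOA : LOA_stmt) (hCFX : CFX_stmt) (hPPT : PPT_stmt) (hCSZ : CSZ_stmt)
    (hFSI : FSI_stmt) (hIM : IM_stmt) (hC3 : C3_stmt) (hIF : IF_stmt) :
    Pool.Agent.FI4.CN4_stmt := by
  intro p M hs G _ _ D x θ χ hr hi m hm
  have hlo := hLOA p M hs G D x θ χ hr
  have hB := CN4_blk hFSI hIM hC3 hs hr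
  have hG : (Nat.card G : ℂ) ≠ 0 := by exact_mod_cast (Nat.card_pos (α := G)).ne'
  have h1 := hCFX M G χ m hm.cop
  rw [hPPT p hs.pr G ⊤ (fun g => Sf (Blk M χ (⊤ : Subgroup G)) (g ^ m) g)] at h1
  have hc : ∀ y v : G, v ∈ Cz (⊤ : Subgroup G) y → y * v = v * y := by
    intro y v hv
    have h : v ∈ Subgroup.centralizer ({y} : Set G) := hv.2
    rw [Subgroup.mem_centralizer_singleton_iff] at h
    exact h.symm
  have h2 : ∀ y : G, y ≠ 1 →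
      ∑ᶠ (_ : y ∈ {y : G | y ∈ (⊤ : Subgroup G) ∧ PEl p y}),
        ∑ᶠ v ∈ {v : G | v ∈ Cz (⊤ : Subgroup G) y ∧ PReg p v},
          Sf (Blk M χ (⊤ : Subgroup G)) ((y * v) ^ m) (y * v) = 0 := by
    intro y hy1
    by_cases hy : y ∈ {y : G | y ∈ (⊤ : Subgroup G) ∧ PEl p y}
    · refine Eq.trans (CN4_pos hy _) ?_
      refine Eq.trans ?_ (hCSZ p M hs G D x θ χ hlo hi m hm y hy.2 hy1)
      refine finsum_mem_congr rfl fun v hv => ?_
      rw [CN4_pow hm hv.2 (hc y v hv.1), hB]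
    · exact CN4_neg hy _
  have h3 : ∑ᶠ y ∈ {y : G | y ∈ (⊤ : Subgroup G) ∧ PEl p y},
        ∑ᶠ v ∈ {v : G | v ∈ Cz (⊤ : Subgroup G) y ∧ PReg p v},
          Sf (Blk M χ (⊤ : Subgroup G)) ((y * v) ^ m) (y * v) =
      ∑ᶠ v ∈ {v : G | v ∈ (⊤ : Subgroup G) ∧ PReg p v}, Sf (Blk M χ (⊤ : Subgroup G)) v v := by
    rw [finsum_eq_single _ (1 : G) h2]
    refine Eq.trans (CN4_pos ⟨Subgroup.mem_top _, ⟨0, one_pow _⟩⟩ _) ?_
    refine finsum_mem_congr ?_ fun v hv => ?_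
    · ext v
      constructor
      · rintro ⟨_, h⟩
        exact ⟨Subgroup.mem_top _, h⟩
      · rintro ⟨_, h⟩
        refine ⟨⟨Subgroup.mem_top _, ?_⟩, h⟩
        show v ∈ Subgroup.centralizer ({(1 : G)} : Set G)
        rw [Subgroup.mem_centralizer_singleton_iff]
        simp
    · have h4 : (1 * v : G) ^ m = 1 ^ m * v := CN4_pow hm hv.2 (by simp)
      rw [h4, one_pow, one_mul]
  have hfin : (Blk M χ (⊤ : Subgroup G)).Finite :=
    (hIF G ⊤).1.subset fun ψ hψ => hψ.1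
  have hV : {v : G | v ∈ (⊤ : Subgroup G) ∧ PReg p v}.Finite := Set.toFinite _
  have h5 : ∑ᶠ v ∈ {v : G | v ∈ (⊤ : Subgroup G) ∧ PReg p v}, Sf (Blk M χ (⊤ : Subgroup G)) v v =
      (Nat.card G : ℂ) * LL p M χ ⊤ := by
    have h6 : ∑ᶠ v ∈ {v : G | v ∈ (⊤ : Subgroup G) ∧ PReg p v},
        Sf (Blk M χ (⊤ : Subgroup G)) v v =
        ∑ᶠ φ ∈ Blk M χ (⊤ : Subgroup G), ∑ᶠ v ∈ {v : G | v ∈ (⊤ : Subgroup G) ∧ PReg p v},
          φ v * φ v⁻¹ :=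
      finsum_mem_comm (fun (v : G) (φ : G → ℂ) => φ v * φ v⁻¹) hV hfin
    rw [h6]
    unfold LL
    rw [finsum_mem_eq_finite_toFinset_sum _ hfin, finsum_mem_eq_finite_toFinset_sum _ hfin,
      Finset.mul_sum]
    refine Finset.sum_congr rfl fun φ _ => ?_
    unfold EE
    rw [Subgroup.card_top]
    field_simp
  rw [h3, h5] at h1
  exact (mul_left_cancel₀ hG h1).symm

end Pool.Agent.FI4C
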